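import Mathlib
import Pool.Agent.Lib_helper31.PLDefs
import Pool.Agent.Lib_helper31.PLPrimes

set_option autoImplicit false

namespace Pool.Agent.Results.MP_007c2d_nt.NonSquareNorm

open Pool.Agent.Lib_helper31.PL

/-- If `|a² + ab - b²|` is not a perfect square, then `(a, b)` has infinitely many odd
`0`-Pisano-Legendre primes. -/
theorem result (a b : ℤ) (h : ¬ IsSquare |a ^ 2 + a * b - b ^ 2|) :
    (PLprimes a b 0).Infinite :=
  infinite_zeroPL a b h

end Pool.Agent.Results.MP_007c2d_nt.NonSquareNorm
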